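import Mathlib
import Pool.Agent.H706Z.Sigma

set_option autoImplicit false

namespace Pool.Agent.Results.MP_339821_gt.AFrechet

open Pool.Agent.H706Z

/-- There is a Tychonoff Frechet space that is d-separable but not D-separable. -/
theorem result : ∃ (X : Type) (_ : TopologicalSpace X), T35Space X ∧ FrechetUrysohnSpace X ∧
    LittleDSeparable X ∧ ¬ BigDSeparable X :=
  ⟨SigmaCube ℝ, inferInstance, inferInstance, Sigma.frechet, Sigma.littleD, Sigma.not_bigD_real⟩

end Pool.Agent.Results.MP_339821_gt.AFrechet
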