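import Mathlib
import Pool.Agent.H706Z.Sigma

set_option autoImplicit false

namespace Pool.Agent.Results.MP_339821_gt.BSigmaCube

open Pool.Agent.H706Z

/-- For every infinite index set `I` whose cardinality satisfies `κ ^ ℵ₀ = κ`, the Sigma-product of
the Cantor cube with index set `I` is not D-separable. -/
theorem result : ∀ I : Type, Cardinal.aleph0 ≤ Cardinal.mk I →
    Cardinal.mk I ^ Cardinal.aleph0 = Cardinal.mk I → ¬ BigDSeparable (SigmaCube I) :=
  fun _ h1 h2 => Sigma.not_bigD h1 h2

end Pool.Agent.Results.MP_339821_gt.BSigmaCube
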